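import Pool.Agent.helper36.BP.SpecD

/-!
# Project bp (MP_ad8ced_nt), row CLP (helper29): close elements
-/

set_option autoImplicit false

open Finset
open Pool.Agent.FI Pool.Agent.HK
open Pool.Agent.CH (nit rgh ll2)
open Pool.Agent.SK (tr0 Th)

noncomputable section

namespace Pool.Agent.BP

private theorem CLP_s8 : √(8 : ℝ) * √(8 : ℝ) = 8 := Real.mul_self_sqrt (by norm_num)

private theorem CLP_u (k : ℤ) (hk : |k| ≤ 1) : ∃ u : ℤ × ℤ, u.1 ^ 2 - 8 * u.2 ^ 2 = 1 ∧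
    0 < (u.1 : ℝ) + u.2 * √8 ∧ 0 < (u.1 : ℝ) - u.2 * √8 ∧
    Real.log ((u.1 : ℝ) + u.2 * √8) = k * lep ∧ Real.log ((u.1 : ℝ) - u.2 * √8) = -(k * lep) := by
  have h8 := CLP_s8
  have h80 : (0 : ℝ) ≤ √8 := Real.sqrt_nonneg 8
  have h83 : √(8 : ℝ) < 3 := by
    nlinarith
  have hprod : ((3 : ℝ) + √8) * (3 - √8) = 1 := by nlinarith
  have hlog : Real.log (3 - √8) = -Real.log (3 + √8) := by
    have h1 : Real.log (((3 : ℝ) + √8) * (3 - √8)) = 0 := by rw [hprod, Real.log_one]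
    rw [Real.log_mul (by linarith) (by linarith)] at h1
    linarith
  rw [abs_le] at hk
  have hk3 : k = -1 ∨ k = 0 ∨ k = 1 := by omega
  rcases hk3 with rfl | rfl | rfl
  · refine ⟨(3, -1), by norm_num, ?_, ?_, ?_, ?_⟩
    · push_cast
      linarith
    · push_cast
      linarith
    · have e : ((3 : ℤ) : ℝ) + ((-1 : ℤ) : ℝ) * √8 = 3 - √8 := by push_cast; ring
      show Real.log (((3 : ℤ) : ℝ) + ((-1 : ℤ) : ℝ) * √8) = ((-1 : ℤ) : ℝ) * lep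
      rw [e, hlog]
      unfold lep
      push_cast
      ring
    · have e : ((3 : ℤ) : ℝ) - ((-1 : ℤ) : ℝ) * √8 = 3 + √8 := by push_cast; ring
      show Real.log (((3 : ℤ) : ℝ) - ((-1 : ℤ) : ℝ) * √8) = -(((-1 : ℤ) : ℝ) * lep)
      rw [e]
      unfold lep
      push_cast
      ring
  · refine ⟨(1, 0), by norm_num, ?_, ?_, ?_, ?_⟩
    · simp
    · simp
    · simp
    · simp
  · refine ⟨(3, 1), by norm_num, ?_, ?_, ?_, ?_⟩
    · push_cast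
      linarith
    · push_cast
      linarith
    · have e : ((3 : ℤ) : ℝ) + ((1 : ℤ) : ℝ) * √8 = 3 + √8 := by push_cast; ring
      show Real.log (((3 : ℤ) : ℝ) + ((1 : ℤ) : ℝ) * √8) = ((1 : ℤ) : ℝ) * lep
      rw [e]
      unfold lep
      push_cast
      ring
    · have e : ((3 : ℤ) : ℝ) - ((1 : ℤ) : ℝ) * √8 = 3 - √8 := by push_cast; ring
      show Real.log (((3 : ℤ) : ℝ) - ((1 : ℤ) : ℝ) * √8) = -(((1 : ℤ) : ℝ) * lep)
      rw [e, hlog]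
      unfold lep
      push_cast
      ring

private theorem CLP_ne {v : ℤ × ℤ} (hv : N8 v ≠ 0) :
    (v.1 : ℝ) + v.2 * √8 ≠ 0 ∧ (v.1 : ℝ) - v.2 * √8 ≠ 0 := by
  have h8 := CLP_s8
  have h1 : ((v.1 : ℝ) + v.2 * √8) * ((v.1 : ℝ) - v.2 * √8) = ((N8 v : ℤ) : ℝ) := by
    unfold N8
    push_cast
    linear_combination (-(v.2 : ℝ) ^ 2) * h8
  constructor
  · intro h
    rw [h, zero_mul] at h1
    exact hv (by exact_mod_cast h1.symm)
  · intro h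
    rw [h, mul_zero] at h1
    exact hv (by exact_mod_cast h1.symm)

/-- the inequality for two numbers of the same sign with close logarithms -/
private theorem CLP_xy {x y δ : ℝ} (hxy : 0 < x * y) (hδ : |δ| ≤ 1)
    (h : Real.log |x| - Real.log |y| = δ) : (x - y) ^ 2 ≤ 2 * (x * y) * δ ^ 2 := by
  have hx : x ≠ 0 := fun h0 => by rw [h0, zero_mul] at hxy; exact lt_irrefl _ hxy
  have hy : y ≠ 0 := fun h0 => by rw [h0, mul_zero] at hxy; exact lt_irrefl _ hxy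
  have hX : 0 < |x| := abs_pos.2 hx
  have hY : 0 < |y| := abs_pos.2 hy
  have hXY : |x| * |y| = x * y := by rw [← abs_mul, abs_of_pos hxy]
  have e1 : |x| = |y| * Real.exp δ := by
    rw [← h, Real.exp_sub, Real.exp_log hX, Real.exp_log hY]
    field_simp
  have e2 : |y| = |x| * Real.exp (-δ) := by
    rw [e1, mul_assoc, ← Real.exp_add]
    simp
  have b1 := abs_le.1 (Real.abs_exp_sub_one_sub_id_le hδ)
  have hδ' : |(-δ)| ≤ 1 := by rwa [abs_neg]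
  have b2 := abs_le.1 (Real.abs_exp_sub_one_sub_id_le hδ')
  have f1 : x ^ 2 = (x * y) * Real.exp δ := by
    calc x ^ 2 = |x| * |x| := by rw [← sq_abs x]; ring
      _ = |x| * (|y| * Real.exp δ) := by rw [← e1]
      _ = (|x| * |y|) * Real.exp δ := by ring
      _ = (x * y) * Real.exp δ := by rw [hXY]
  have f2 : y ^ 2 = (x * y) * Real.exp (-δ) := by
    calc y ^ 2 = |y| * |y| := by rw [← sq_abs y]; ring
      _ = |y| * (|x| * Real.exp (-δ)) := by rw [← e2]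
      _ = (|x| * |y|) * Real.exp (-δ) := by ring
      _ = (x * y) * Real.exp (-δ) := by rw [hXY]
  have g1 : (x - y) ^ 2 = (x * y) * (Real.exp δ + Real.exp (-δ) - 2) := by
    calc (x - y) ^ 2 = x ^ 2 + y ^ 2 - 2 * (x * y) := by ring
      _ = (x * y) * Real.exp δ + (x * y) * Real.exp (-δ) - 2 * (x * y) := by rw [f1, f2]
      _ = _ := by ring
  have g2 : Real.exp δ + Real.exp (-δ) - 2 ≤ 2 * δ ^ 2 := by
    have h3 := b1.2
    have h4 := b2.2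
    have h5 : (-δ) ^ 2 = δ ^ 2 := by ring
    rw [h5] at h4
    linarith
  rw [g1]
  calc (x * y) * (Real.exp δ + Real.exp (-δ) - 2) ≤ (x * y) * (2 * δ ^ 2) :=
        mul_le_mul_of_nonneg_left g2 hxy.le
    _ = 2 * (x * y) * δ ^ 2 := by ring

private theorem CLP_mem (hSIZ : SIZ_stmt) {M : ℕ} {w : ℤ × ℤ} (hw : w ∈ FF M) :
    w.1 ^ 2 ≤ 2 * (M : ℤ) ∧ w.2 ^ 2 ≤ (M : ℤ) ∧ 0 < nn w ∧ nn w ≤ M := by
  classical
  obtain ⟨_, h6, h7⟩ := Finset.mem_filter.1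
    (show w ∈ {z ∈ Icc (-(2 * M : ℤ)) (2 * M) ×ˢ Icc (-(2 * M : ℤ)) (2 * M) | Fd z ∧ nn z ≤ M} from hw)
  obtain ⟨h1, h2, h3, _⟩ := hSIZ w h6
  have h8 : (nn w : ℤ) ≤ M := by exact_mod_cast h7
  exact ⟨by linarith, by linarith, h3, h7⟩

theorem CLP (hSIZ : SIZ_stmt) : CLP_stmt := by
  classical
  refine ⟨30, by norm_num, ?_⟩
  intro M ρ k hM hρ0 hρ1 hk z hz
  obtain ⟨-, -, hz3, hz4⟩ := CLP_mem hSIZ hz
  obtain ⟨u, hu1, hu2, hu3, hu4, hu5⟩ := CLP_u k hk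
  have h8 := CLP_s8
  -- the primitive element
  have hN8z : N8 z ≠ 0 := by
    intro h
    unfold nn at hz3
    rw [h] at hz3
    simp at hz3
  obtain ⟨g, hg⟩ : ∃ g : ℕ, g = Int.gcd z.1 z.2 := ⟨_, rfl⟩
  have hgpos : 0 < g := by
    rw [hg]
    apply Int.gcd_pos_iff.2
    by_contra hcon
    push Not at hcon
    apply hN8z
    unfold N8
    rw [hcon.1, hcon.2]
    norm_num
  obtain ⟨g', a, l, hg', hcop, ha, hl⟩ := Int.exists_gcd_one' (m := z.1) (n := z.2) (by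
    rw [← hg]
    exact hgpos)
  have hgg : g' = g := by
    rw [hg, ha, hl, Int.gcd_mul_right, hcop, one_mul]
    simp
  rw [hgg] at ha hl
  clear hg' hgg g'
  have hg0 : (0 : ℝ) < g := by exact_mod_cast hgpos
  have hcop' : IsCoprime a l := Int.isCoprime_iff_gcd_eq_one.2 hcop
  -- the moved element
  obtain ⟨a₁, ha₁⟩ : ∃ a₁ : ℤ, a₁ = u.1 * a + 8 * u.2 * l := ⟨_, rfl⟩
  obtain ⟨l₁, hl₁⟩ : ∃ l₁ : ℤ, l₁ = u.1 * l + u.2 * a := ⟨_, rfl⟩
  have hN1 : a₁ ^ 2 - 8 * l₁ ^ 2 = a ^ 2 - 8 * l ^ 2 := by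
    rw [ha₁, hl₁]
    linear_combination (a ^ 2 - 8 * l ^ 2) * hu1
  obtain ⟨x, y, hxy⟩ := hcop'
  obtain ⟨X, Y, hXY⟩ : ∃ X Y : ℤ, X * a₁ + Y * l₁ = 1 := by
    refine ⟨x * u.1 - y * u.2, y * u.1 - 8 * x * u.2, ?_⟩
    rw [ha₁, hl₁]
    linear_combination (x * a + y * l) * hu1 + hxy
  obtain ⟨n₀, hn₀⟩ : ∃ n₀ : ℕ, n₀ = (a ^ 2 - 8 * l ^ 2).natAbs := ⟨_, rfl⟩
  have hN8 : N8 z = (g : ℤ) ^ 2 * (a ^ 2 - 8 * l ^ 2) := by
    unfold N8
    rw [ha, hl]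
    ring
  have hnn : nn z = g ^ 2 * n₀ := by
    unfold nn
    rw [hN8, Int.natAbs_mul, hn₀, Int.natAbs_pow, Int.natAbs_natCast]
  have hn₀1 : 1 ≤ n₀ := by
    rcases Nat.eq_zero_or_pos n₀ with h | h
    · rw [hnn, h, mul_zero] at hz3
      exact absurd hz3 (lt_irrefl _)
    · exact h
  have hn₀M : n₀ ≤ M := by
    have h1 : n₀ ≤ g ^ 2 * n₀ := Nat.le_mul_of_pos_left _ (by positivity)
    rw [← hnn] at h1
    exact h1.trans hz4
  have hn₀r : (1 : ℝ) ≤ n₀ := by exact_mod_cast hn₀1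
  have hn₀Mr : (n₀ : ℝ) ≤ M := by exact_mod_cast hn₀M
  have hM0 : (1 : ℝ) ≤ M := by exact_mod_cast hM
  have hNne : a ^ 2 - 8 * l ^ 2 ≠ 0 := by
    intro h
    rw [h] at hn₀
    simp at hn₀
    omega
  -- the real numbers
  obtain ⟨s0, t0⟩ := CLP_ne (v := (a, l)) (by unfold N8; exact hNne)
  obtain ⟨s1, t1⟩ := CLP_ne (v := (a₁, l₁)) (by unfold N8; rw [hN1]; exact hNne)
  have s0' : (a : ℝ) + l * √8 ≠ 0 := s0
  have t0' : (a : ℝ) - l * √8 ≠ 0 := t0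
  have s1' : (a₁ : ℝ) + l₁ * √8 ≠ 0 := s1
  have t1' : (a₁ : ℝ) - l₁ * √8 ≠ 0 := t1
  have es : (a₁ : ℝ) + l₁ * √8 = ((u.1 : ℝ) + u.2 * √8) * ((a : ℝ) + l * √8) := by
    rw [ha₁, hl₁]
    push_cast
    linear_combination (-(u.2 : ℝ) * l) * h8
  have et : (a₁ : ℝ) - l₁ * √8 = ((u.1 : ℝ) - u.2 * √8) * ((a : ℝ) - l * √8) := by
    rw [ha₁, hl₁]
    push_cast
    linear_combination (-(u.2 : ℝ) * l) * h8
  have hyz : yy z = Real.log |(a : ℝ) + l * √8| - Real.log |(a : ℝ) - l * √8| := by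
    unfold yy
    have e1 : (z.1 : ℝ) + z.2 * √8 = g * ((a : ℝ) + l * √8) := by
      rw [ha, hl]
      push_cast
      ring
    have e2 : (z.1 : ℝ) - z.2 * √8 = g * ((a : ℝ) - l * √8) := by
      rw [ha, hl]
      push_cast
      ring
    rw [e1, e2, abs_mul, abs_mul, mul_div_mul_left _ _ (abs_pos.2 hg0.ne').ne',
      Real.log_div (abs_pos.2 s0').ne' (abs_pos.2 t0').ne']
  have hy1 : Real.log |(a₁ : ℝ) + l₁ * √8| - Real.log |(a₁ : ℝ) - l₁ * √8| =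
      yy z + 2 * k * lep := by
    rw [es, et, abs_mul, abs_mul, abs_of_pos hu2, abs_of_pos hu3,
      Real.log_mul hu2.ne' (abs_pos.2 s0').ne', Real.log_mul hu3.ne' (abs_pos.2 t0').ne', hu4, hu5,
      hyz]
    ring
  -- the set
  obtain ⟨S, hS⟩ : ∃ S : Finset (ℤ × ℤ), S = {w ∈ FF M | (N8 w).sign = (N8 z).sign ∧
      |yy w - yy z - 2 * k * lep| ≤ ρ} := ⟨_, rfl⟩
  rw [← hS]
  have hmem : ∀ w ∈ S, w ∈ FF M ∧ (N8 w).sign = (N8 z).sign ∧
      |yy w - yy z - 2 * k * lep| ≤ ρ := by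
    intro w hw
    rw [hS] at hw
    exact Finset.mem_filter.1 hw
  -- the determinant is small
  have hdet : ∀ w ∈ S, ((a₁ * w.2 - l₁ * w.1 : ℤ) : ℝ) ^ 2 ≤ (ρ * √((n₀ : ℝ) * M)) ^ 2 := by
    intro w hw
    obtain ⟨w1, w2, w3⟩ := hmem w hw
    obtain ⟨-, -, w4, w5⟩ := CLP_mem hSIZ w1
    have hN8w : N8 w ≠ 0 := by
      intro h
      unfold nn at w4
      rw [h] at w4
      simp at w4
    obtain ⟨sw, tw⟩ := CLP_ne hN8w
    obtain ⟨p, hp⟩ : ∃ p : ℝ, p = ((w.1 : ℝ) + w.2 * √8) * ((a₁ : ℝ) - l₁ * √8) := ⟨_, rfl⟩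
    obtain ⟨q, hq⟩ : ∃ q : ℝ, q = ((a₁ : ℝ) + l₁ * √8) * ((w.1 : ℝ) - w.2 * √8) := ⟨_, rfl⟩
    have hpq : p * q = ((N8 w * (a ^ 2 - 8 * l ^ 2) : ℤ) : ℝ) := by
      have e1 : ((a₁ : ℝ) ^ 2 - 8 * (l₁ : ℝ) ^ 2) = (a : ℝ) ^ 2 - 8 * (l : ℝ) ^ 2 := by
        exact_mod_cast hN1
      have e2 : ((w.1 : ℝ) + w.2 * √8) * ((w.1 : ℝ) - w.2 * √8) =
          (w.1 : ℝ) ^ 2 - 8 * (w.2 : ℝ) ^ 2 := by
        linear_combination (-(w.2 : ℝ) ^ 2) * h8
      have e3 : ((a₁ : ℝ) + l₁ * √8) * ((a₁ : ℝ) - l₁ * √8) =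
          (a₁ : ℝ) ^ 2 - 8 * (l₁ : ℝ) ^ 2 := by
        linear_combination (-(l₁ : ℝ) ^ 2) * h8
      calc p * q = (((w.1 : ℝ) + w.2 * √8) * ((w.1 : ℝ) - w.2 * √8)) *
            (((a₁ : ℝ) + l₁ * √8) * ((a₁ : ℝ) - l₁ * √8)) := by rw [hp, hq]; ring
        _ = ((w.1 : ℝ) ^ 2 - 8 * (w.2 : ℝ) ^ 2) * ((a : ℝ) ^ 2 - 8 * (l : ℝ) ^ 2) := by
            rw [e2, e3, e1]
        _ = _ := by
            unfold N8
            push_cast
            ring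
    have hpos : 0 < N8 w * (a ^ 2 - 8 * l ^ 2) := by
      have h1 : 0 < N8 w * N8 z := by
        rcases lt_trichotomy (N8 w) 0 with h | h | h
        · have h2 : (N8 z).sign = -1 := by rw [← w2]; exact Int.sign_eq_neg_one_of_neg h
          exact mul_pos_of_neg_of_neg h (Int.sign_eq_neg_one_iff_neg.1 h2)
        · exact absurd h hN8w
        · have h2 : (N8 z).sign = 1 := by rw [← w2]; exact Int.sign_eq_one_of_pos h
          exact mul_pos h (Int.sign_eq_one_iff_pos.1 h2)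
      rw [hN8] at h1
      have h2 : N8 w * ((g : ℤ) ^ 2 * (a ^ 2 - 8 * l ^ 2)) =
          (g : ℤ) ^ 2 * (N8 w * (a ^ 2 - 8 * l ^ 2)) := by ring
      rw [h2] at h1
      have h3 : (0 : ℤ) < (g : ℤ) ^ 2 := by positivity
      exact (mul_pos_iff_of_pos_left h3).1 h1
    have hpq0 : 0 < p * q := by
      rw [hpq]
      exact_mod_cast hpos
    have hpqM : p * q ≤ n₀ * M := by
      rw [hpq]
      have h1 : N8 w * (a ^ 2 - 8 * l ^ 2) = (nn w : ℤ) * n₀ := by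
        rw [hn₀, nn, Int.natCast_natAbs, Int.natCast_natAbs, ← abs_mul, abs_of_pos hpos]
      rw [h1]
      push_cast
      have h2 : (nn w : ℝ) ≤ M := by exact_mod_cast w5
      nlinarith
    have hlog : Real.log |p| - Real.log |q| = yy w - yy z - 2 * k * lep := by
      rw [hp, hq, abs_mul, abs_mul, Real.log_mul (abs_pos.2 sw).ne' (abs_pos.2 t1').ne',
        Real.log_mul (abs_pos.2 s1').ne' (abs_pos.2 tw).ne']
      have e1 : yy w = Real.log |(w.1 : ℝ) + w.2 * √8| - Real.log |(w.1 : ℝ) - w.2 * √8| := by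
        unfold yy
        rw [Real.log_div (abs_pos.2 sw).ne' (abs_pos.2 tw).ne']
      rw [e1]
      linarith
    have h1 := CLP_xy hpq0 (w3.trans hρ1) hlog
    have h2 : p - q = 2 * √8 * ((a₁ * w.2 - l₁ * w.1 : ℤ) : ℝ) := by
      rw [hp, hq]
      push_cast
      ring
    rw [h2] at h1
    have h3 : (2 * √8 * ((a₁ * w.2 - l₁ * w.1 : ℤ) : ℝ)) ^ 2 =
        32 * ((a₁ * w.2 - l₁ * w.1 : ℤ) : ℝ) ^ 2 := by
      have : (2 * √8 * ((a₁ * w.2 - l₁ * w.1 : ℤ) : ℝ)) ^ 2 =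
        4 * (√8 * √8) * ((a₁ * w.2 - l₁ * w.1 : ℤ) : ℝ) ^ 2 := by ring
      rw [this, h8]
      ring
    rw [h3] at h1
    have h4 : (yy w - yy z - 2 * k * lep) ^ 2 ≤ ρ ^ 2 := by
      rw [← sq_abs]
      exact pow_le_pow_left₀ (abs_nonneg _) w3 2
    have h5 : (ρ * √((n₀ : ℝ) * M)) ^ 2 = ρ ^ 2 * (n₀ * M) := by
      rw [mul_pow, Real.sq_sqrt (by positivity)]
    rw [h5]
    have h6 : 2 * (p * q) * (yy w - yy z - 2 * k * lep) ^ 2 ≤ 2 * (n₀ * M) * ρ ^ 2 :=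
      mul_le_mul (by linarith) h4 (by positivity) (by positivity)
    have h7 : (0 : ℝ) ≤ ρ ^ 2 * (n₀ * M) := by positivity
    have h8' : (0 : ℝ) ≤ ((a₁ * w.2 - l₁ * w.1 : ℤ) : ℝ) ^ 2 := sq_nonneg _
    nlinarith
  -- the number of the values
  obtain ⟨T, hT⟩ : ∃ T : ℝ, T = ρ * √((n₀ : ℝ) * M) := ⟨_, rfl⟩
  have hT0 : 0 ≤ T := by rw [hT]; positivity
  have hval : (#(S.image fun w : ℤ × ℤ => a₁ * w.2 - l₁ * w.1) : ℝ) ≤ 2 * T + 1 := by
    have hsub : (S.image fun w : ℤ × ℤ => a₁ * w.2 - l₁ * w.1) ⊆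
        Icc (-(⌊T⌋₊ : ℤ)) (⌊T⌋₊ : ℤ) := by
      intro d hd
      obtain ⟨w, hw, rfl⟩ := Finset.mem_image.1 hd
      have h1 := hdet w hw
      rw [← hT] at h1
      have h2 := abs_le_of_sq_le_sq h1 hT0
      rw [mem_Icc, ← abs_le]
      have h3 : ((|a₁ * w.2 - l₁ * w.1|.toNat : ℕ) : ℝ) ≤ T := by
        have h4 : ((|a₁ * w.2 - l₁ * w.1|.toNat : ℕ) : ℤ) = |a₁ * w.2 - l₁ * w.1| :=
          Int.toNat_of_nonneg (abs_nonneg _)
        have h5 : ((|a₁ * w.2 - l₁ * w.1|.toNat : ℕ) : ℝ) = ((|a₁ * w.2 - l₁ * w.1| : ℤ) : ℝ) := by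
          exact_mod_cast h4
        rw [h5, Int.cast_abs]
        exact h2
      have h4 := Nat.le_floor h3
      have h5 : |a₁ * w.2 - l₁ * w.1| = ((|a₁ * w.2 - l₁ * w.1|.toNat : ℕ) : ℤ) :=
        (Int.toNat_of_nonneg (abs_nonneg _)).symm
      rw [h5]
      exact_mod_cast h4
    have h1 := Finset.card_le_card hsub
    rw [Int.card_Icc] at h1
    have h2 : #(S.image fun w : ℤ × ℤ => a₁ * w.2 - l₁ * w.1) ≤ 2 * ⌊T⌋₊ + 1 := by
      refine h1.trans ?_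
      omega
    have h3 : (#(S.image fun w : ℤ × ℤ => a₁ * w.2 - l₁ * w.1) : ℝ) ≤ 2 * (⌊T⌋₊ : ℝ) + 1 := by
      exact_mod_cast h2
    have h4 := Nat.floor_le hT0
    linarith
  -- the fibres
  obtain ⟨V, hV⟩ : ∃ V : ℝ, V = √((M : ℝ) / n₀) := ⟨_, rfl⟩
  have hV0 : 0 ≤ V := by rw [hV]; positivity
  have hV2 : V ^ 2 = M / n₀ := by rw [hV]; exact Real.sq_sqrt (by positivity)
  have hV1 : 1 ≤ V := by
    rw [hV, Real.one_le_sqrt, one_le_div (by linarith)]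
    exact hn₀Mr
  have hfib : #S ≤ (2 * ⌊7 * V⌋₊ + 1) * #(S.image fun w : ℤ × ℤ => a₁ * w.2 - l₁ * w.1) := by
    refine Finset.card_le_mul_card_image S _ ?_
    intro d hd
    obtain ⟨v, hv, rfl⟩ := Finset.mem_image.1 hd
    have hsub : {w ∈ S | a₁ * w.2 - l₁ * w.1 = a₁ * v.2 - l₁ * v.1} ⊆
        (Icc (-(⌊7 * V⌋₊ : ℤ)) (⌊7 * V⌋₊ : ℤ)).image
          fun t => (v.1 + t * a₁, v.2 + t * l₁) := by
      intro w hw
      rw [Finset.mem_filter] at hw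
      obtain ⟨hw1, hw2⟩ := hw
      obtain ⟨t, ht⟩ : ∃ t : ℤ, t = X * (w.1 - v.1) + Y * (w.2 - v.2) := ⟨_, rfl⟩
      have f1 : t * a₁ = w.1 - v.1 := by
        rw [ht]
        linear_combination (w.1 - v.1) * hXY + Y * hw2
      have f2 : t * l₁ = w.2 - v.2 := by
        rw [ht]
        linear_combination (w.2 - v.2) * hXY - X * hw2
      rw [Finset.mem_image]
      refine ⟨t, ?_, ?_⟩
      · obtain ⟨c1, c2, -, -⟩ := CLP_mem hSIZ (hmem w hw1).1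
        obtain ⟨d1, d2, -, -⟩ := CLP_mem hSIZ (hmem v hv).1
        have g1 : (t * a₁) ^ 2 ≤ 8 * (M : ℤ) := by
          rw [f1]
          nlinarith [sq_nonneg (w.1 + v.1)]
        have g2 : (t * l₁) ^ 2 ≤ 4 * (M : ℤ) := by
          rw [f2]
          nlinarith [sq_nonneg (w.2 + v.2)]
        have g3 : (n₀ : ℤ) ≤ a₁ ^ 2 + 8 * l₁ ^ 2 := by
          rw [hn₀, Int.natCast_natAbs, ← hN1, abs_le]
          constructor <;> nlinarith [sq_nonneg a₁, sq_nonneg l₁]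
        have g4 : t ^ 2 * (n₀ : ℤ) ≤ 40 * M := by
          have h1 : t ^ 2 * (n₀ : ℤ) ≤ t ^ 2 * (a₁ ^ 2 + 8 * l₁ ^ 2) :=
            mul_le_mul_of_nonneg_left g3 (sq_nonneg t)
          nlinarith
        have g5 : (t : ℝ) ^ 2 * n₀ ≤ 40 * M := by exact_mod_cast g4
        have g6 : (t : ℝ) ^ 2 ≤ (7 * V) ^ 2 := by
          rw [mul_pow, hV2]
          have h1 : (t : ℝ) ^ 2 ≤ 40 * M / n₀ := by
            rw [le_div_iff₀ (by linarith)]
            exact g5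
          refine h1.trans ?_
          rw [mul_div_assoc]
          have : (0 : ℝ) ≤ (M : ℝ) / n₀ := by positivity
          nlinarith
        have g7 := abs_le_of_sq_le_sq g6 (by positivity)
        rw [mem_Icc, ← abs_le]
        have h3 : ((|t|.toNat : ℕ) : ℝ) ≤ 7 * V := by
          have h4 : ((|t|.toNat : ℕ) : ℤ) = |t| := Int.toNat_of_nonneg (abs_nonneg _)
          have h5 : ((|t|.toNat : ℕ) : ℝ) = ((|t| : ℤ) : ℝ) := by exact_mod_cast h4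
          rw [h5, Int.cast_abs]
          exact g7
        have h4 := Nat.le_floor h3
        have h5 : |t| = ((|t|.toNat : ℕ) : ℤ) := (Int.toNat_of_nonneg (abs_nonneg _)).symm
        rw [h5]
        exact_mod_cast h4
      · rw [f1, f2]
        apply Prod.ext
        · show v.1 + (w.1 - v.1) = w.1
          ring
        · show v.2 + (w.2 - v.2) = w.2
          ring
    refine (Finset.card_le_card hsub).trans (Finset.card_image_le.trans ?_)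
    rw [Int.card_Icc]
    omega
  have hfr : (#S : ℝ) ≤ (2 * (⌊7 * V⌋₊ : ℝ) + 1) *
      (#(S.image fun w : ℤ × ℤ => a₁ * w.2 - l₁ * w.1) : ℝ) := by exact_mod_cast hfib
  have h7 : (⌊7 * V⌋₊ : ℝ) ≤ 7 * V := Nat.floor_le (by positivity)
  have hTV : T * V = ρ * M := by
    rw [hT, hV, mul_assoc, ← Real.sqrt_mul (by positivity)]
    have hn0 : (n₀ : ℝ) ≠ 0 := by linarith
    have e1 : (n₀ : ℝ) * M * (M / n₀) = (M : ℝ) ^ 2 := by
      rw [mul_div_assoc', div_eq_iff hn0]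
      ring
    rw [e1, Real.sqrt_sq (by positivity)]
  have hfin : √(M * (Int.gcd z.1 z.2 : ℝ) ^ 2 / nn z) = V := by
    have hn0 : (n₀ : ℝ) ≠ 0 := by linarith
    have hg0 : (g : ℝ) ^ 2 ≠ 0 := by
      have : 0 < (g : ℝ) := by exact_mod_cast hgpos
      positivity
    rw [hV, ← hg, hnn]
    congr 1
    rw [Nat.cast_mul, Nat.cast_pow, div_eq_div_iff (mul_ne_zero hg0 hn0) hn0]
    ring
  rw [hfin]
  calc (#S : ℝ) ≤ (2 * (⌊7 * V⌋₊ : ℝ) + 1) *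
      (#(S.image fun w : ℤ × ℤ => a₁ * w.2 - l₁ * w.1) : ℝ) := hfr
    _ ≤ (15 * V) * (2 * T + 1) :=
        mul_le_mul (by linarith) hval (Nat.cast_nonneg _) (by positivity)
    _ = 30 * (T * V) + 15 * V := by ring
    _ ≤ 30 * (ρ * M + V) := by
        rw [hTV]
        linarith

end Pool.Agent.BP
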