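import Pool.Agent.helper36.BP.SpecR

/-!
# Project bp (MP_ad8ced_nt), row RMB (helper29): the inverse of the rough series
(after helper61/CH/LG.lean and helper77/HK/RCS.lean)
-/

set_option autoImplicit false

open Finset
open Pool.Agent.FI Pool.Agent.HK
open Pool.Agent.CH (nit rgh ll2)
open Pool.Agent.SK (tr0 Th)

noncomputable section

namespace Pool.Agent.BP

private theorem RMB_rgh_mul {y : ℝ} {a b n : ℕ} (hn : n ≠ 0) (h : a * b = n) :
    rgh y n ↔ rgh y a ∧ rgh y b := by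
  have ha : a ≠ 0 := by rintro rfl; exact hn (by rw [← h, zero_mul])
  have hb : b ≠ 0 := by rintro rfl; exact hn (by rw [← h, mul_zero])
  constructor
  · rintro ⟨_, h2⟩
    refine ⟨⟨ha, fun p hp hd => h2 p hp ?_⟩, ⟨hb, fun p hp hd => h2 p hp ?_⟩⟩
    · rw [← h]; exact hd.mul_right b
    · rw [← h]; exact hd.mul_left a
  · rintro ⟨⟨_, h1⟩, ⟨_, h2⟩⟩
    refine ⟨hn, fun p hp hd => ?_⟩
    rw [← h] at hd
    rcases hp.dvd_mul.1 hd with h3 | h3
    · exact h1 p hp h3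
    · exact h2 p hp h3

/-- the rough restriction is completely multiplicative -/
private theorem RMB_cm (y : ℝ) (g : ℕ → ℂ) (hg : CM g) : CM (rg y g) := by
  classical
  obtain ⟨g0, g1, gm, gb⟩ := hg
  refine ⟨?_, ?_, ?_, ?_⟩
  · unfold rg
    rw [if_neg]
    exact fun h => h.1 rfl
  · unfold rg
    rw [if_pos]
    · exact g1
    · exact ⟨one_ne_zero, fun p hp hd => absurd (Nat.dvd_one.1 hd) hp.one_lt.ne'⟩
  · intro m n
    unfold rg
    by_cases h0 : m * n = 0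
    · rw [if_neg (fun h => h.1 h0)]
      rcases Nat.mul_eq_zero.1 h0 with h | h
      · rw [if_neg (fun h' : rgh y m => h'.1 h), zero_mul]
      · rw [if_neg (fun h' : rgh y n => h'.1 h), mul_zero]
    · have h1 := RMB_rgh_mul (y := y) h0 rfl
      by_cases hm : rgh y m
      · by_cases hn : rgh y n
        · rw [if_pos (h1.2 ⟨hm, hn⟩), if_pos hm, if_pos hn, gm]
        · rw [if_neg (fun h => hn (h1.1 h).2), if_neg hn, mul_zero]
      · rw [if_neg (fun h => hm (h1.1 h).1), if_neg hm, zero_mul]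
  · intro n
    unfold rg
    split_ifs
    · exact gb n
    · rw [norm_zero]
      exact zero_le_one

private theorem RMB_mgnorm (g : ℕ → ℂ) (hg : CM g) (n : ℕ) : ‖mg g n‖ ≤ 1 := by
  unfold mg
  rw [norm_mul]
  have h1 : ‖((ArithmeticFunction.moebius n : ℤ) : ℂ)‖ ≤ 1 := by
    rw [Complex.norm_intCast]
    exact_mod_cast ArithmeticFunction.abs_moebius_le_one
  calc ‖((ArithmeticFunction.moebius n : ℤ) : ℂ)‖ * ‖g n‖ ≤ 1 * 1 :=
        mul_le_mul h1 (hg.2.2.2 n) (norm_nonneg _) zero_le_one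
    _ = 1 := one_mul 1

/-- `(log n)^j ≤ C n^ε` -/
private theorem RMB_log_pow_le (j : ℕ) {ε : ℝ} (hε : 0 < ε) : ∃ C : ℝ, 0 < C ∧ ∀ n : ℕ, n ≠ 0 →
    Real.log n ^ j ≤ C * (n : ℝ) ^ ε := by
  rcases Nat.eq_zero_or_pos j with rfl | hj
  · refine ⟨1, one_pos, fun n hn => ?_⟩
    rw [pow_zero, one_mul]
    exact Real.one_le_rpow (by exact_mod_cast Nat.one_le_iff_ne_zero.2 hn) hε.le
  · refine ⟨(j / ε) ^ j, by positivity, fun n _ => ?_⟩
    have h1 := Real.log_natCast_le_rpow_div n (show 0 < ε / j by positivity)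
    have h2 : 0 ≤ Real.log n := Real.log_natCast_nonneg n
    calc Real.log n ^ j ≤ ((n : ℝ) ^ (ε / j) / (ε / j)) ^ j := pow_le_pow_left₀ h2 h1 j
      _ = (j / ε) ^ j * (n : ℝ) ^ ε := by
        rw [div_pow, ← Real.rpow_natCast ((n : ℝ) ^ (ε / j)), ← Real.rpow_mul (by positivity)]
        have : ε / j * (j : ℝ) = ε := by field_simp
        rw [this, div_pow, div_pow]
        field_simp

private theorem RMB_summable_of_log {f : ℕ → ℂ} {j : ℕ} (hf : ∀ n : ℕ, ‖f n‖ ≤ Real.log n ^ j)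
    {s : ℂ} (hs : 1 < s.re) : LSeriesSummable f s := by
  obtain ⟨C, hC, h⟩ := RMB_log_pow_le j (show 0 < (s.re - 1) / 2 by linarith)
  refine LSeriesSummable_of_le_const_mul_rpow (x := (s.re + 1) / 2) (by linarith)
    ⟨C, fun n hn => ?_⟩
  refine (hf n).trans ((h n hn).trans (le_of_eq ?_))
  congr 2
  ring

private theorem RMB_s1 (g : ℕ → ℂ) (hg : ∀ n, ‖g n‖ ≤ 1) (j : ℕ) {s : ℂ} (hs : 1 < s.re) :
    LSeriesSummable (fun n => g n * (Real.log n : ℂ) ^ j) s := by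
  refine RMB_summable_of_log (j := j) (fun n => ?_) hs
  rw [norm_mul, norm_pow, Complex.norm_real, Real.norm_of_nonneg (Real.log_natCast_nonneg n)]
  exact mul_le_of_le_one_left (pow_nonneg (Real.log_natCast_nonneg n) _) (hg n)

/-- the binomial theorem for the logarithms in a convolution -/
private theorem RMB_pt (F G : ℕ → ℂ) (j n : ℕ) (hn : n ≠ 0) :
    (∑ p ∈ n.divisorsAntidiagonal, F p.1 * G p.2) * (Real.log n : ℂ) ^ j =
      ∑ i ∈ range (j + 1), (Nat.choose j i : ℂ) * ∑ p ∈ n.divisorsAntidiagonal,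
        (F p.1 * (Real.log p.1 : ℂ) ^ i) * (G p.2 * (Real.log p.2 : ℂ) ^ (j - i)) := by
  simp only [Finset.mul_sum]
  rw [Finset.sum_comm, Finset.sum_mul]
  refine Finset.sum_congr rfl fun p hp => ?_
  rw [Nat.mem_divisorsAntidiagonal] at hp
  have hp1 : p.1 ≠ 0 := fun h => hn (by rw [← hp.1, h, zero_mul])
  have hp2 : p.2 ≠ 0 := fun h => hn (by rw [← hp.1, h, mul_zero])
  have hlog : (Real.log n : ℂ) = Real.log p.1 + Real.log p.2 := by
    rw [← hp.1]
    push_cast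
    rw [Real.log_mul (by exact_mod_cast hp1) (by exact_mod_cast hp2)]
    push_cast
    ring
  rw [hlog, add_pow, Finset.mul_sum]
  refine Finset.sum_congr rfl fun i _ => ?_
  ring

private theorem RMB_s3 (g h : ℕ → ℂ) (hg : ∀ n, ‖g n‖ ≤ 1) (hh : ∀ n, ‖h n‖ ≤ 1) (j : ℕ) {s : ℂ}
    (hs : 1 < s.re) : LSeriesSummable (fun n => cv g h n * (Real.log n : ℂ) ^ j) s := by
  have h1 : ∀ i ∈ range (j + 1), LSeriesSummable ((Nat.choose j i : ℂ) •
      (LSeries.convolution (fun n => g n * (Real.log n : ℂ) ^ i)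
        (fun n => h n * (Real.log n : ℂ) ^ (j - i)))) s := fun i _ =>
    ((RMB_s1 g hg i hs).convolution (RMB_s1 h hh (j - i) hs)).smul _
  have h2 := LSeriesSummable.sum h1
  refine (LSeriesSummable_congr s (fun {n} hn => ?_)).mp h2
  unfold cv
  rw [RMB_pt g h j n hn]
  simp only [Finset.sum_apply, Pi.smul_apply, LSeries.convolution_def, smul_eq_mul]

private def RMB_af (f : ℕ → ℂ) (h : f 0 = 0) : ArithmeticFunction ℂ := ⟨f, h⟩

private theorem RMB_mg0 (g : ℕ → ℂ) : mg g 0 = 0 := by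
  unfold mg
  simp

/-- the inverse -/
private theorem RMB_unit (g₁ g₂ : ℕ → ℂ) (h₁ : CM g₁) (h₂ : CM g₂) (n : ℕ) :
    ∑ p ∈ n.divisorsAntidiagonal, cv (mg g₁) (mg g₂) p.1 * cv g₁ g₂ p.2 =
      if n = 1 then 1 else 0 := by
  -- the arithmetic functions
  have key : ∀ (g : ℕ → ℂ) (hg : CM g), RMB_af (mg g) (RMB_mg0 g) * RMB_af g hg.1 = 1 := by
    intro g hg
    ext m
    rw [ArithmeticFunction.mul_apply]
    have e1 : ∑ p ∈ m.divisorsAntidiagonal,
        RMB_af (mg g) (RMB_mg0 g) p.1 * RMB_af g hg.1 p.2 =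
        ∑ p ∈ m.divisorsAntidiagonal, ((ArithmeticFunction.moebius p.1 : ℤ) : ℂ) * g m := by
      refine Finset.sum_congr rfl fun p hp => ?_
      rw [Nat.mem_divisorsAntidiagonal] at hp
      show (ArithmeticFunction.moebius p.1 : ℂ) * g p.1 * g p.2 = _
      rw [← hp.1, hg.2.2.1]
      ring
    rw [e1, ← Finset.sum_mul]
    have h4 : ∑ p ∈ m.divisorsAntidiagonal, ((ArithmeticFunction.moebius p.1 : ℤ) : ℂ) =
        ∑ d ∈ m.divisors, ((ArithmeticFunction.moebius d : ℤ) : ℂ) :=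
      Nat.sum_divisorsAntidiagonal (fun d _ => ((ArithmeticFunction.moebius d : ℤ) : ℂ))
    have h5 : ∑ d ∈ m.divisors, ((ArithmeticFunction.moebius d : ℤ) : ℂ) =
        if m = 1 then 1 else 0 := by
      have h6 : ∑ d ∈ m.divisors, ArithmeticFunction.moebius d = if m = 1 then 1 else 0 := by
        have h7 := congrArg (fun f : ArithmeticFunction ℤ => f m)
          ArithmeticFunction.moebius_mul_coe_zeta
        simp only [ArithmeticFunction.coe_mul_zeta_apply, ArithmeticFunction.one_apply] at h7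
        exact h7
      rw [← Int.cast_sum, h6]
      split_ifs <;> simp
    rw [h4, h5, ArithmeticFunction.one_apply]
    by_cases hm : m = 1
    · rw [hm, if_pos rfl, hg.2.1, one_mul]
    · rw [if_neg hm, zero_mul]
  have k1 := key g₁ h₁
  have k2 := key g₂ h₂
  obtain ⟨M₁, hM₁⟩ : ∃ M₁, M₁ = RMB_af (mg g₁) (RMB_mg0 g₁) := ⟨_, rfl⟩
  obtain ⟨M₂, hM₂⟩ : ∃ M₂, M₂ = RMB_af (mg g₂) (RMB_mg0 g₂) := ⟨_, rfl⟩
  obtain ⟨G₁, hG₁⟩ : ∃ G₁, G₁ = RMB_af g₁ h₁.1 := ⟨_, rfl⟩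
  obtain ⟨G₂, hG₂⟩ : ∃ G₂, G₂ = RMB_af g₂ h₂.1 := ⟨_, rfl⟩
  rw [← hM₁, ← hG₁] at k1
  rw [← hM₂, ← hG₂] at k2
  have k3 : (M₁ * M₂) * (G₁ * G₂) = 1 := by
    calc (M₁ * M₂) * (G₁ * G₂) = (M₁ * G₁) * (M₂ * G₂) := by ring
      _ = 1 := by rw [k1, k2, one_mul]
  have k4 := congrArg (fun f : ArithmeticFunction ℂ => f n) k3
  simp only [ArithmeticFunction.one_apply] at k4
  rw [ArithmeticFunction.mul_apply] at k4
  rw [← k4]
  refine Finset.sum_congr rfl fun p _ => ?_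
  rw [ArithmeticFunction.mul_apply, ArithmeticFunction.mul_apply, hM₁, hM₂, hG₁, hG₂]
  rfl

private theorem RMB_rec (g₁ g₂ : ℕ → ℂ) (h₁ : CM g₁) (h₂ : CM g₂) (j : ℕ) (s : ℂ)
    (hs : 1 < s.re) :
    ∑ i ∈ range (j + 1), (Nat.choose j i : ℂ) * DF (cv (mg g₁) (mg g₂)) i s *
      DF (cv g₁ g₂) (j - i) s = if j = 0 then 1 else 0 := by
  have sM : ∀ i, LSeriesSummable (fun n => cv (mg g₁) (mg g₂) n * (Real.log n : ℂ) ^ i) s :=
    fun i => RMB_s3 _ _ (RMB_mgnorm g₁ h₁) (RMB_mgnorm g₂ h₂) i hs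
  have sG : ∀ i, LSeriesSummable (fun n => cv g₁ g₂ n * (Real.log n : ℂ) ^ i) s :=
    fun i => RMB_s3 _ _ h₁.2.2.2 h₂.2.2.2 i hs
  have h1 : ∀ i, DF (cv (mg g₁) (mg g₂)) i s * DF (cv g₁ g₂) (j - i) s
      = LSeries (LSeries.convolution (fun n => cv (mg g₁) (mg g₂) n * (Real.log n : ℂ) ^ i)
          (fun n => cv g₁ g₂ n * (Real.log n : ℂ) ^ (j - i))) s := fun i =>
    (LSeries_convolution' (sM i) (sG (j - i))).symm
  have h2 : ∀ i, LSeriesSummable (LSeries.convolution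
      (fun n => cv (mg g₁) (mg g₂) n * (Real.log n : ℂ) ^ i)
          (fun n => cv g₁ g₂ n * (Real.log n : ℂ) ^ (j - i))) s := fun i =>
    (sM i).convolution (sG (j - i))
  have h3 : ∀ i ∈ range (j + 1), (Nat.choose j i : ℂ) * DF (cv (mg g₁) (mg g₂)) i s *
      DF (cv g₁ g₂) (j - i) s
      = LSeries ((Nat.choose j i : ℂ) • (LSeries.convolution
        (fun n => cv (mg g₁) (mg g₂) n * (Real.log n : ℂ) ^ i)
          (fun n => cv g₁ g₂ n * (Real.log n : ℂ) ^ (j - i)))) s := by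
    intro i _
    rw [LSeries_smul, ← h1, mul_assoc]
  rw [Finset.sum_congr rfl h3, ← LSeries_sum (fun i _ => (h2 i).smul _)]
  have h4 : LSeries (∑ i ∈ range (j + 1), (Nat.choose j i : ℂ) •
      (LSeries.convolution (fun n => cv (mg g₁) (mg g₂) n * (Real.log n : ℂ) ^ i)
          (fun n => cv g₁ g₂ n * (Real.log n : ℂ) ^ (j - i)))) s =
      LSeries (if j = 0 then LSeries.delta else 0) s := by
    refine LSeries_congr (fun {n} hn => ?_) s
    have h5 := RMB_pt (cv (mg g₁) (mg g₂)) (cv g₁ g₂) j n hn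
    rw [RMB_unit g₁ g₂ h₁ h₂ n] at h5
    simp only [Finset.sum_apply, Pi.smul_apply, LSeries.convolution_def, smul_eq_mul]
    rw [← h5]
    by_cases hj : j = 0
    · subst hj
      simp [LSeries.delta]
    · rw [if_neg hj, Pi.zero_apply]
      by_cases hn1 : n = 1
      · subst hn1
        rw [Nat.cast_one, Real.log_one, Complex.ofReal_zero, zero_pow hj, mul_zero]
      · rw [if_neg hn1, zero_mul]
  rw [h4]
  by_cases hj : j = 0
  · rw [if_pos hj, if_pos hj, LSeries_delta, Pi.one_apply]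
  · rw [if_neg hj, if_neg hj, LSeries_zero, Pi.zero_apply]

/-- the bound of the recursion step -/
private theorem RMB_step {l D : ℝ} {J j : ℕ} (hj : j ≤ J) (hD : 0 ≤ D)
    (hl2 : 2 ^ (J + 2) ≤ l) (hlJ : (J : ℝ) + 2 ≤ l) (R S : ℕ → ℂ)
    (hR : ∀ i ≤ J, ‖R i‖ ≤ D ^ i * l ^ (i + 3)) (hR0 : 1 ≤ l ^ 12 * ‖R 0‖)
    (hS : ∀ i < j, ‖S i‖ ≤ D ^ i * l ^ ((J + 18) * (i + 1))) (T : ℂ)
    (hT : ‖T‖ ≤ D ^ j * l ^ (j + 3))
    (hrec : S j * R 0 = T - ∑ i ∈ range j, (Nat.choose j i : ℂ) * S i * R (j - i)) :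
    ‖S j‖ ≤ D ^ j * l ^ ((J + 18) * (j + 1)) := by
  have hl1 : 1 ≤ l := by
    have : (1 : ℝ) ≤ 2 ^ (J + 2) := one_le_pow₀ (by norm_num)
    linarith
  have hl0 : 0 ≤ l := by linarith
  have hl22 : 2 ≤ l := by
    have : (0 : ℝ) ≤ J := Nat.cast_nonneg _
    linarith
  have hb : ‖T - ∑ i ∈ range j, (Nat.choose j i : ℂ) * S i * R (j - i)‖ ≤
      D ^ j * l ^ ((J + 18) * j + J + 6) := by
    have h1 : ‖∑ i ∈ range j, (Nat.choose j i : ℂ) * S i * R (j - i)‖ ≤
        D ^ j * l ^ ((J + 18) * j + J + 5) := by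
      have h2 : ∀ i ∈ range j, ‖(Nat.choose j i : ℂ) * S i * R (j - i)‖ ≤
          D ^ j * l ^ ((J + 18) * j + J + 4) := by
        intro i hi
        rw [Finset.mem_range] at hi
        rw [norm_mul, norm_mul, Complex.norm_natCast]
        have hc : ((Nat.choose j i : ℕ) : ℝ) ≤ l := by
          have h3 : Nat.choose j i ≤ 2 ^ (J + 2) :=
            (Nat.choose_le_two_pow j i).trans (Nat.pow_le_pow_right (by norm_num) (by omega))
          have h4 : ((Nat.choose j i : ℕ) : ℝ) ≤ ((2 ^ (J + 2) : ℕ) : ℝ) := by exact_mod_cast h3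
          push_cast at h4
          linarith
        have hDi : 0 ≤ D ^ i * l ^ ((J + 18) * (i + 1)) := by positivity
        calc ((Nat.choose j i : ℕ) : ℝ) * ‖S i‖ * ‖R (j - i)‖
            ≤ l * (D ^ i * l ^ ((J + 18) * (i + 1))) * (D ^ (j - i) * l ^ (j - i + 3)) := by
              apply mul_le_mul _ (hR _ (by omega)) (norm_nonneg _) (by positivity)
              exact mul_le_mul hc (hS i hi) (norm_nonneg _) hl0
          _ = D ^ (i + (j - i)) * l ^ (1 + (J + 18) * (i + 1) + (j - i + 3)) := by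
              rw [pow_add D i, pow_add l (1 + (J + 18) * (i + 1)), pow_add l 1, pow_one]
              ring
          _ ≤ D ^ j * l ^ ((J + 18) * j + J + 4) := by
              have h5 : i + (j - i) = j := by omega
              rw [h5]
              apply mul_le_mul_of_nonneg_left _ (by positivity)
              apply pow_le_pow_right₀ hl1
              have h6 : (J + 18) * (i + 1) ≤ (J + 18) * j := Nat.mul_le_mul_left _ (by omega)
              omega
      refine (norm_sum_le _ _).trans ((Finset.sum_le_sum h2).trans ?_)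
      rw [Finset.sum_const, Finset.card_range, nsmul_eq_mul]
      have hjl : (j : ℝ) ≤ l := by
        have : (j : ℝ) ≤ J := by exact_mod_cast hj
        linarith
      calc (j : ℝ) * (D ^ j * l ^ ((J + 18) * j + J + 4))
          ≤ l * (D ^ j * l ^ ((J + 18) * j + J + 4)) :=
            mul_le_mul_of_nonneg_right hjl (by positivity)
        _ = D ^ j * l ^ ((J + 18) * j + J + 5) := by
            rw [pow_succ l ((J + 18) * j + J + 4)]; ring
    have hT' : ‖T‖ ≤ D ^ j * l ^ ((J + 18) * j + J + 5) := by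
      refine hT.trans (mul_le_mul_of_nonneg_left (pow_le_pow_right₀ hl1 ?_) (by positivity))
      have : j ≤ (J + 18) * j := Nat.le_mul_of_pos_left j (by omega)
      omega
    calc ‖T - ∑ i ∈ range j, (Nat.choose j i : ℂ) * S i * R (j - i)‖
        ≤ ‖T‖ + ‖∑ i ∈ range j, (Nat.choose j i : ℂ) * S i * R (j - i)‖ := norm_sub_le _ _
      _ ≤ 2 * (D ^ j * l ^ ((J + 18) * j + J + 5)) := by linarith
      _ ≤ l * (D ^ j * l ^ ((J + 18) * j + J + 5)) :=
          mul_le_mul_of_nonneg_right hl22 (by positivity)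
      _ = D ^ j * l ^ ((J + 18) * j + J + 6) := by
          rw [pow_succ l ((J + 18) * j + J + 5)]; ring
  rw [← hrec, norm_mul] at hb
  have h7 : ‖S j‖ ≤ l ^ 12 * (‖S j‖ * ‖R 0‖) := by
    have := mul_le_mul_of_nonneg_left hR0 (norm_nonneg (S j))
    calc ‖S j‖ = ‖S j‖ * 1 := (mul_one _).symm
      _ ≤ ‖S j‖ * (l ^ 12 * ‖R 0‖) := this
      _ = l ^ 12 * (‖S j‖ * ‖R 0‖) := by ring
  calc ‖S j‖ ≤ l ^ 12 * (‖S j‖ * ‖R 0‖) := h7
    _ ≤ l ^ 12 * (D ^ j * l ^ ((J + 18) * j + J + 6)) :=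
        mul_le_mul_of_nonneg_left hb (by positivity)
    _ = D ^ j * l ^ (12 + ((J + 18) * j + J + 6)) := by
        rw [pow_add l 12]; ring
    _ = D ^ j * l ^ ((J + 18) * (j + 1)) := by
        congr 2; ring

private theorem RMB_hs {x R : ℝ} {A A' : ℕ} {a : ℕ → ℂ} (hx : 1 ≤ Real.log x) (hA : A ≤ A')
    (h : Hs x A' R a) : Hs x A R a := by
  intro τ hτ v hv
  refine (h τ hτ v hv).trans ?_
  apply div_le_div_of_nonneg_left (Nat.cast_nonneg v) (by positivity)
  exact pow_le_pow_right₀ hx hA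

theorem RMB (hRDB : RDB_stmt) (hRLB : RLB_stmt) : RMB_stmt := by
  intro J
  obtain ⟨B1, C, x1, hC, hRDB⟩ := hRDB J
  obtain ⟨B2, c, x2, hc, hRLB⟩ := hRLB
  obtain ⟨M, hM⟩ : ∃ M : ℝ, M = max (max C (1 / c)) (max (2 ^ (J + 2)) ((J : ℝ) + 2)) := ⟨_, rfl⟩
  have hMC : C ≤ M := by rw [hM]; exact (le_max_left _ _).trans (le_max_left _ _)
  have hMc : 1 / c ≤ M := by rw [hM]; exact (le_max_right _ _).trans (le_max_left _ _)
  have hM2 : 2 ^ (J + 2) ≤ M := by rw [hM]; exact (le_max_left _ _).trans (le_max_right _ _)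
  have hMJ : (J : ℝ) + 2 ≤ M := by rw [hM]; exact (le_max_right _ _).trans (le_max_right _ _)
  refine ⟨max B1 B2, (J + 18) * (J + 1), max (max x1 x2) (Real.exp (Real.exp M)), ?_⟩
  intro x hx R k₁ k₂ g₁ g₂ h₁ h₂ hDt σ τ hσ1 hσ2 hτ
  have hx1 : x1 ≤ x := (le_max_left _ _).trans ((le_max_left _ _).trans hx)
  have hx2 : x2 ≤ x := (le_max_right _ _).trans ((le_max_left _ _).trans hx)
  have hx3 : Real.exp (Real.exp M) ≤ x := (le_max_right _ _).trans hx
  have hlogx : Real.exp M ≤ Real.log x := by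
    have := Real.log_le_log (Real.exp_pos _) hx3
    rwa [Real.log_exp] at this
  have hll : M ≤ ll2 x := by
    have := Real.log_le_log (Real.exp_pos _) hlogx
    rwa [Real.log_exp] at this
  have hM1 : 1 ≤ M := by
    have : (1 : ℝ) ≤ 2 ^ (J + 2) := one_le_pow₀ (by norm_num)
    linarith
  have hlog1 : 1 ≤ Real.log x := (Real.one_le_exp (by linarith)).trans hlogx
  obtain ⟨c1, c2, c3, c4, c5, c6, c7, c8, c9, c10⟩ := hDt
  obtain ⟨s, hsdef⟩ : ∃ s : ℂ, s = (σ : ℂ) + τ * Complex.I := ⟨_, rfl⟩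
  have hre : 1 < s.re := by
    have h1 : s.re = σ := by rw [hsdef]; simp
    rw [h1]
    have : 0 < 1 / Real.log x := by positivity
    linarith
  obtain ⟨D, hDdef⟩ : ∃ D : ℝ, D = CH.dl x := ⟨_, rfl⟩
  obtain ⟨l, hldef⟩ : ∃ l : ℝ, l = ll2 x := ⟨_, rfl⟩
  have hD0 : 0 ≤ D := by rw [hDdef]; unfold CH.dl; exact Real.rpow_nonneg (by linarith) _
  have hlM : M ≤ l := by rw [hldef]; exact hll
  have hl1 : 1 ≤ l := hM1.trans hlM
  have hl0 : 0 < l := by linarith
  have hG1 := RMB_cm (yx x) g₁ c3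
  have hG2 := RMB_cm (yx x) g₂ c4
  have hR : ∀ i ≤ J, ‖DF (cv (rg (yx x) g₁) (rg (yx x) g₂)) i s‖ ≤ D ^ i * l ^ (i + 3) := by
    intro i hi
    have h3 := hRDB x hx1 R g₁ g₂ c3 c4 (RMB_hs hlog1 (le_max_left _ _) c9) σ τ hσ1 hσ2 hτ i hi
    rw [← hDdef, ← hldef, ← hsdef] at h3
    refine h3.trans ?_
    calc C * D ^ i * l ^ (i + 2) ≤ l * D ^ i * l ^ (i + 2) := by
          apply mul_le_mul_of_nonneg_right _ (by positivity)
          exact mul_le_mul_of_nonneg_right (hMC.trans hlM) (by positivity)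
      _ = D ^ i * l ^ (i + 3) := by rw [pow_succ l (i + 2)]; ring
  have hR0 : 1 ≤ l ^ 12 * ‖DF (cv (rg (yx x) g₁) (rg (yx x) g₂)) 0 s‖ := by
    have h3 := hRLB x hx2 R k₁ k₂ g₁ g₂ h₁ h₂ ⟨c1, c2, c3, c4, c5, c6, c7, c8,
      RMB_hs hlog1 (le_max_right _ _) c9, RMB_hs hlog1 (le_max_right _ _) c10⟩ σ τ hσ1 hσ2 hτ
    rw [← hldef, ← hsdef] at h3
    have h4 : 1 ≤ c * l := by
      have h5 := hMc.trans hlM
      rw [div_le_iff₀ hc] at h5
      linarith
    calc (1 : ℝ) ≤ c * l := h4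
      _ = l ^ 12 * (c / l ^ 11) := by field_simp
      _ ≤ l ^ 12 * ‖DF (cv (rg (yx x) g₁) (rg (yx x) g₂)) 0 s‖ :=
          mul_le_mul_of_nonneg_left h3 (by positivity)
  have hMM : ∀ j, j ≤ J →
      ‖DF (cv (mg (rg (yx x) g₁)) (mg (rg (yx x) g₂))) j s‖ ≤ D ^ j * l ^ ((J + 18) * (j + 1)) := by
    intro j
    induction j using Nat.strong_induction_on with
    | _ j ih =>
      intro hj
      refine RMB_step hj hD0 (hM2.trans hlM) (hMJ.trans hlM)
        (fun i => DF (cv (rg (yx x) g₁) (rg (yx x) g₂)) i s)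
        (fun i => DF (cv (mg (rg (yx x) g₁)) (mg (rg (yx x) g₂))) i s) hR hR0
        (fun i hi => ih i hi (by omega)) (if j = 0 then 1 else 0) ?_ ?_
      · by_cases hj0 : j = 0
        · subst hj0
          simp only [if_true, norm_one, pow_zero, one_mul]
          exact one_le_pow₀ hl1
        · rw [if_neg hj0, norm_zero]; positivity
      · have hrec := RMB_rec _ _ hG1 hG2 j s hre
        rw [Finset.sum_range_succ, Nat.choose_self, Nat.sub_self, Nat.cast_one, one_mul] at hrec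
        rw [← hrec]
        ring
  intro j hj
  rw [← hDdef, ← hldef, ← hsdef]
  have hexp : l ^ ((J + 18) * (j + 1)) ≤ l ^ ((J + 18) * (J + 1)) :=
    pow_le_pow_right₀ hl1 (Nat.mul_le_mul_left _ (by omega))
  exact (hMM j hj).trans (mul_le_mul_of_nonneg_left hexp (by positivity))

end Pool.Agent.BP
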